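import Pool.Agent.Y485.HS.Stm

/-! Project HS: J8 (Baire category) and J11 (countable uniformly dense subgroups). -/

set_option autoImplicit false

open MeasureTheory Set Metric Filter Topology
open scoped ENNReal NNReal

namespace Pool.Agent.Y475.HS

open Pool.Agent.Y485.HS

instance compactBB (n : ℕ) : CompactSpace (BB n) :=
  isCompact_iff_compactSpace.1 (isCompact_closedBall (0 : E n) 4)

/-- the restriction of the maps `T k` to the ball, as a continuous map -/
noncomputable def res {n : ℕ} {K : Type} [TopologicalSpace K] (T : K → E n → E n)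
    (hT : ContinuousOn (fun q : K × E n => T q.1 q.2) (univ ×ˢ BB n)) : C(K, C(BB n, E n)) :=
  ContinuousMap.curry ⟨fun q : K × BB n => T q.1 q.2, by
    have h2 : Continuous (fun q : K × BB n => ((q.1, (q.2 : E n)) : K × E n)) :=
      continuous_fst.prodMk (continuous_subtype_val.comp continuous_snd)
    exact hT.comp_continuous h2 (fun q => ⟨mem_univ _, q.2.2⟩)⟩

lemma res_apply {n : ℕ} {K : Type} [TopologicalSpace K] (T : K → E n → E n)
    (hT : ContinuousOn (fun q : K × E n => T q.1 q.2) (univ ×ˢ BB n)) (k : K) (x : BB n) :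
    res T hT k x = T k x := rfl

lemma countable_closure {G : Type} [Group G] {s : Set G} (hs : s.Countable) :
    (Subgroup.closure s : Set G).Countable := by
  have : Countable s := hs.to_subtype
  have h1 : Subgroup.closure s = (FreeGroup.lift (Subtype.val : s → G)).range := by
    rw [FreeGroup.range_lift_eq_closure, Subtype.range_coe]
  have h2 : Countable (FreeGroup s) := by
    unfold FreeGroup
    infer_instance
  rw [h1, MonoidHom.coe_range]
  exact countable_range _

theorem sep : S_SEP := by
  intro n K _ _ _ _ T hT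
  set R : Set C(BB n, E n) := range (res T hT) with hR
  obtain ⟨s, hs1, hs2⟩ := TopologicalSpace.exists_countable_dense R
  have hpre : ∀ y : R, ∃ k, res T hT k = y.1 := fun y => y.2
  choose pre hprek using hpre
  refine ⟨Subgroup.closure (pre '' s), countable_closure (hs1.image pre), fun k ε hε => ?_⟩
  obtain ⟨y, hy, hd⟩ := hs2.exists_dist_lt (⟨res T hT k, mem_range_self k⟩ : R) hε
  refine ⟨pre y, Subgroup.subset_closure (mem_image_of_mem pre hy), fun x hx => ?_⟩
  have h1 : dist (res T hT (pre y)) (res T hT k) < ε := by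
    rw [hprek, dist_comm]
    exact hd
  have h2 := ContinuousMap.dist_apply_le_dist (f := res T hT (pre y)) (g := res T hT k)
    (⟨x, hx⟩ : BB n)
  exact h2.trans_lt h1

/-- extension by zero -/
noncomputable def ext {n : ℕ} (f : C(BB n, E n)) (x : E n) : E n := by
  classical exact if h : x ∈ BB n then f ⟨x, h⟩ else 0

lemma ext_of_mem {n : ℕ} (f : C(BB n, E n)) {x : E n} (h : x ∈ BB n) : ext f x = f ⟨x, h⟩ := by
  unfold ext; rw [dif_pos h]

lemma sob_congr {n m : ℕ} {u v : E n → E n} (h : ∀ x ∈ BB n, u x = v x) (hu : SobOn m u) :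
    SobOn m v := by
  obtain ⟨g, h1, h2, h3⟩ := hu
  exact ⟨g, h1, fun x hx y hy => by rw [← h x hx, ← h y hy]; exact h2 x hx y hy, h3⟩

lemma closed_sob (hCL : S_CL) {n : ℕ} (hn : 2 ≤ n) (m : ℕ) :
    IsClosed {f : C(BB n, E n) | SobOn m (ext f)} := by
  apply IsSeqClosed.isClosed
  intro u v hu huv
  refine hCL n hn m (fun i => ext (u i)) (ext v) hu ?_
  rw [Metric.tendstoUniformlyOn_iff]
  intro ε hε
  filter_upwards [Metric.tendsto_nhds.1 huv ε hε] with i hi x hx
  rw [ext_of_mem _ hx, ext_of_mem _ hx, dist_comm]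
  exact (ContinuousMap.dist_apply_le_dist _).trans_lt hi

theorem baire (hCL : S_CL) : S_BAIRE := by
  intro n hn H _ _ _ _ _ _ T hT hfin
  have hcl : ∀ m : ℕ, IsClosed {h : H | SobOn m (T h)} := by
    intro m
    have h1 : {h : H | SobOn m (T h)} = (res T hT) ⁻¹' {f : C(BB n, E n) | SobOn m (ext f)} := by
      ext h
      simp only [mem_ofPred_eq, mem_preimage]
      constructor
      · exact sob_congr fun x hx => by rw [ext_of_mem _ hx, res_apply]
      · exact sob_congr fun x hx => by rw [ext_of_mem _ hx, res_apply]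
    rw [h1]
    exact (closed_sob hCL hn m).preimage (res T hT).continuous
  have hU : ⋃ m : ℕ, {h : H | SobOn m (T h)} = univ := by
    ext h
    simp only [mem_iUnion, mem_ofPred_eq, mem_univ, iff_true]
    exact hfin h
  obtain ⟨m, h0, hh0⟩ := nonempty_interior_of_iUnion_of_closed hcl hU
  have hopen : IsOpen ((fun k : H => h0 * k) ⁻¹' (interior {h : H | SobOn m (T h)})) :=
    isOpen_interior.preimage (continuous_const.mul continuous_id)
  obtain ⟨K, hK⟩ := ProfiniteGrp.exist_openNormalSubgroup_sub_open_nhds_of_one hopen (by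
    rw [mem_preimage, mul_one]; exact hh0)
  refine ⟨h0, K.toSubgroup, m, K.isOpen', fun k hk => ?_⟩
  have h1 : h0 * k ∈ {h : H | SobOn m (T h)} := interior_subset (hK hk)
  exact h1

end Pool.Agent.Y475.HS
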